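import Mathlib

/-! Package EX, part B: a bounded sequence of measures on a square with pointwise convergent
Fourier transforms has a limit measure. Pure Mathlib. -/

set_option autoImplicit false

open MeasureTheory Filter Topology

namespace Pool.Agent.Helper59.Cc

theorem exB (K C : ℝ) (m : ℕ → Measure (ℝ × ℝ)) (hf : ∀ n, m n Set.univ ≤ ENNReal.ofReal C)
    (hs : ∀ n, m n (Set.Icc (-K) K ×ˢ Set.Icc (-K) K)ᶜ = 0) (Phi : ℝ → ℝ → ℂ)
    (h : ∀ s t : ℝ, Tendsto (fun n => ∫ p, Complex.exp (Complex.I * (s * p.1 + t * p.2)) ∂(m n)) atTop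
      (𝓝 (Phi s t))) :
    ∃ μ : Measure (ℝ × ℝ), IsFiniteMeasure μ ∧ μ (Set.Icc (-K) K ×ˢ Set.Icc (-K) K)ᶜ = 0 ∧
      ∀ s t : ℝ, ∫ p, Complex.exp (Complex.I * (s * p.1 + t * p.2)) ∂μ = Phi s t := by
  have hfin : ∀ n, IsFiniteMeasure (m n) := fun n => ⟨(hf n).trans_lt ENNReal.ofReal_lt_top⟩
  have hK : IsCompact (Set.Icc (-K) K ×ˢ Set.Icc (-K) K) := isCompact_Icc.prod isCompact_Icc
  have hcomp := isCompact_setOfPred_finiteMeasure_le_of_isCompact (E := ℝ × ℝ) (Real.toNNReal C) hK
  let M : ℕ → FiniteMeasure (ℝ × ℝ) := fun n => ⟨m n, hfin n⟩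
  have hmem : ∀ n, M n ∈ {μ : FiniteMeasure (ℝ × ℝ) | μ.mass ≤ Real.toNNReal C ∧
      μ (Set.Icc (-K) K ×ˢ Set.Icc (-K) K)ᶜ = 0} := by
    intro n
    refine ⟨?_, ?_⟩
    · have h1 : ((M n).mass : ENNReal) ≤ (Real.toNNReal C : ENNReal) := by
        rw [FiniteMeasure.ennreal_mass]
        exact hf n
      exact_mod_cast h1
    · rw [FiniteMeasure.null_iff_toMeasure_null]
      exact hs n
  let U : Ultrafilter ℕ := hyperfilter ℕ
  have hU : (U : Filter ℕ) ≤ atTop := Nat.hyperfilter_le_atTop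
  obtain ⟨μ, hμ, hlim⟩ := isCompact_iff_ultrafilter_le_nhds'.1 hcomp (U.map M)
    (by rw [Ultrafilter.mem_map]; exact Filter.Eventually.of_forall hmem)
  have hT : Tendsto M (U : Filter ℕ) (𝓝 μ) := hlim
  refine ⟨(μ : Measure (ℝ × ℝ)), inferInstance, ?_, fun s t => ?_⟩
  · exact (FiniteMeasure.null_iff_toMeasure_null _ _).1 hμ.2
  · have hint := FiniteMeasure.tendsto_iff_forall_integral_tendsto.1 hT
    have hUlim := (h s t).mono_left hU
    have hc : Continuous fun p : ℝ × ℝ => Complex.exp (Complex.I * (s * p.1 + t * p.2)) := by fun_prop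
    have hb : ∀ p : ℝ × ℝ, ‖Complex.exp (Complex.I * (s * p.1 + t * p.2))‖ = 1 := by
      intro p
      have : Complex.I * ((s : ℂ) * (p.1 : ℂ) + t * p.2) = ((s * p.1 + t * p.2 : ℝ) : ℂ) * Complex.I := by
        push_cast; ring
      rw [this, Complex.norm_exp_ofReal_mul_I]
    have hi : ∀ ν : FiniteMeasure (ℝ × ℝ), Integrable
        (fun p : ℝ × ℝ => Complex.exp (Complex.I * (s * p.1 + t * p.2))) (ν : Measure (ℝ × ℝ)) := by
      intro ν
      apply Integrable.of_bound hc.aestronglyMeasurable 1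
      exact Filter.Eventually.of_forall fun p => (hb p).le
    let fr : BoundedContinuousFunction (ℝ × ℝ) ℝ := BoundedContinuousFunction.ofNormedAddCommGroup
      (fun p => (Complex.exp (Complex.I * (s * p.1 + t * p.2))).re) (Complex.continuous_re.comp hc) 1
      (fun p => by
        rw [Real.norm_eq_abs]
        exact (Complex.abs_re_le_norm _).trans (hb p).le)
    let fi : BoundedContinuousFunction (ℝ × ℝ) ℝ := BoundedContinuousFunction.ofNormedAddCommGroup
      (fun p => (Complex.exp (Complex.I * (s * p.1 + t * p.2))).im) (Complex.continuous_im.comp hc) 1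
      (fun p => by
        rw [Real.norm_eq_abs]
        exact (Complex.abs_im_le_norm _).trans (hb p).le)
    have hre : ∀ ν : FiniteMeasure (ℝ × ℝ), ∫ p, fr p ∂(ν : Measure (ℝ × ℝ)) =
        (∫ p, Complex.exp (Complex.I * (s * p.1 + t * p.2)) ∂(ν : Measure (ℝ × ℝ))).re := by
      intro ν
      exact Complex.reCLM.integral_comp_comm (hi ν)
    have him : ∀ ν : FiniteMeasure (ℝ × ℝ), ∫ p, fi p ∂(ν : Measure (ℝ × ℝ)) =
        (∫ p, Complex.exp (Complex.I * (s * p.1 + t * p.2)) ∂(ν : Measure (ℝ × ℝ))).im := by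
      intro ν
      exact Complex.imCLM.integral_comp_comm (hi ν)
    have h1 := hint fr
    have h2 := hint fi
    simp only [hre] at h1
    simp only [him] at h2
    have h3 := (Complex.continuous_re.tendsto _).comp hUlim
    have h4 := (Complex.continuous_im.tendsto _).comp hUlim
    apply Complex.ext
    · exact tendsto_nhds_unique h1 h3
    · exact tendsto_nhds_unique h2 h4

end Pool.Agent.Helper59.Cc
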