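import Mathlib

/-! # Approximation by trigonometric polynomials -/

set_option autoImplicit false

open MeasureTheory Filter Topology

namespace Pool.Agent.Helper59.Cc

lemma trig (F : ℝ → ℂ) (hF : Continuous F) (hF1 : ∀ x, ‖F x‖ ≤ 1) (L ε : ℝ) (hL : 0 < L)
    (hε : 0 < ε) (Q : (ℝ → ℂ) → Prop)
    (hQe : ∀ s : ℝ, Q fun x => Complex.exp (Complex.I * (s * x)))
    (hQa : ∀ F G, Q F → Q G → Q (fun x => F x + G x))
    (hQs : ∀ (a : ℂ) F, Q F → Q (fun x => a * F x)) :
    ∃ G : ℝ → ℂ, Q G ∧ (∀ x, ‖G x‖ ≤ 1 + ε) ∧ ∀ x, |x| ≤ L → ‖G x - F x‖ ≤ ε := by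
  have hT : Fact (0 < 4 * L) := ⟨by linarith⟩
  set tri : ℝ → ℝ := fun x => L * (2 / Real.pi) * Real.arcsin (Real.sin (Real.pi * x / (2 * L)))
    with htri
  have hpi := Real.pi_pos
  have htc : Continuous tri := by
    rw [htri]
    exact continuous_const.mul (Real.continuous_arcsin.comp (Real.continuous_sin.comp
      (by fun_prop)))
  have hper : Function.Periodic (fun x => F (tri x)) (4 * L) := by
    intro x
    show F (tri (x + 4 * L)) = F (tri x)
    congr 1
    rw [htri]
    show L * (2 / Real.pi) * Real.arcsin (Real.sin (Real.pi * (x + 4 * L) / (2 * L))) = _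
    congr 2
    rw [show Real.pi * (x + 4 * L) / (2 * L) = Real.pi * x / (2 * L) + 2 * Real.pi by
      field_simp; ring, Real.sin_add_two_pi]
  have htid : ∀ x, |x| ≤ L → tri x = x := by
    intro x hx
    rw [abs_le] at hx
    show L * (2 / Real.pi) * Real.arcsin (Real.sin (Real.pi * x / (2 * L))) = x
    rw [Real.arcsin_sin]
    · field_simp
    · rw [le_div_iff₀ (by linarith)]
      nlinarith
    · rw [div_le_iff₀ (by linarith)]
      nlinarith
  have hlc : Continuous (hper.lift : AddCircle (4 * L) → ℂ) := by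
    refine continuous_coinduced_dom.mpr ?_
    exact hF.comp htc
  let f : C(AddCircle (4 * L), ℂ) := ⟨hper.lift, hlc⟩
  have hf : f ∈ closure ((Submodule.span ℂ (Set.range (@fourier (4 * L)))) :
      Set C(AddCircle (4 * L), ℂ)) := by
    have h1 := span_fourier_closure_eq_top (T := 4 * L)
    have h2 : f ∈ (Submodule.span ℂ (Set.range (@fourier (4 * L)))).topologicalClosure := by
      rw [h1]; trivial
    exact h2
  obtain ⟨P, hP, hd⟩ := Metric.mem_closure_iff.1 hf ε hε
  have hPx : ∀ x : ℝ, ‖P (x : AddCircle (4 * L)) - F (tri x)‖ ≤ ε := by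
    intro x
    have h1 : dist (P (x : AddCircle (4 * L))) (f (x : AddCircle (4 * L))) ≤ dist P f :=
      ContinuousMap.dist_apply_le_dist _
    rw [dist_eq_norm] at h1
    have h2 : f (x : AddCircle (4 * L)) = F (tri x) := rfl
    rw [h2] at h1
    rw [dist_comm] at hd
    exact h1.trans hd.le
  refine ⟨fun x => P (x : AddCircle (4 * L)), ?_, fun x => ?_, fun x hx => ?_⟩
  · refine Submodule.span_induction (p := fun (P : C(AddCircle (4 * L), ℂ)) _ =>
      Q fun x : ℝ => P (x : AddCircle (4 * L))) ?_ ?_ ?_ ?_ hP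
    · rintro _ ⟨n, rfl⟩
      have h1 := hQe (2 * Real.pi * n / (4 * L))
      convert h1 using 2 with x
      rw [fourier_coe_apply]
      congr 1
      push_cast
      ring
    · have h1 := hQs 0 _ (hQe 0)
      convert h1 using 2 with x
      simp
    · intro P P' _ _ h h'
      exact hQa _ _ h h'
    · intro a P _ h
      exact hQs a _ h
  · have h1 := hPx x
    have h2 := hF1 (tri x)
    calc ‖P (x : AddCircle (4 * L))‖ = ‖(P (x : AddCircle (4 * L)) - F (tri x)) + F (tri x)‖ := by
          rw [sub_add_cancel]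
      _ ≤ _ := norm_add_le _ _
      _ ≤ 1 + ε := by linarith
  · have h1 := hPx x
    rwa [htid x hx] at h1

end Pool.Agent.Helper59.Cc
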