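import Pool.Agent.Helper59.Cc.Gex
import Pool.Agent.Helper59.Cc.Trig

/-! # Functions of the first energy in the correlation measure -/

set_option autoImplicit false

open MeasureTheory Filter Topology ProbabilityTheory
open scoped BigOperators ENNReal NNReal InnerProductSpace ComplexConjugate

namespace Pool.Agent.Helper59.Cc

open Pool.Agent.H5R2.NB Pool.Agent.Helper26.Nb Pool.Agent.Helper26.Cm Pool.Agent.Helper26.Dj
  Pool.Agent.Helper26.Rg Pool.Agent.Helper26.Cc
open Pool.Agent.TH369.AN (Rz pt ro cp fc)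
open Pool.Agent.TH369.MU (zk ep)

variable {d : ℕ}

lemma TC_sa (c : ℝ) {R : ℝ} (hR : 0 ≤ R) (V : Site d → ℝ) : IsSelfAdjoint (TC c hR V) :=
  TV_sa _ _ _ _

lemma TC_norm (c : ℝ) {R : ℝ} (hR : 0 ≤ R) (V : Site d → ℝ) :
    ‖TC c hR V‖ ≤ ‖Kp d c‖ + R := by
  unfold TC TV
  refine (norm_add_le _ _).trans ?_
  have h := mulL_le (fun x => ((cl R V x : ℝ) : ℂ)) R (nV (cl_le hR V))
  rw [max_eq_left hR] at h
  linarith

lemma cl_id {R : ℝ} {V : Site d → ℝ} (hV : ∀ x, |V x| ≤ R) : cl R V = V := by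
  funext x
  unfold cl pot
  have h := abs_le.1 (hV x)
  show max (-R) (min R (V x)) = V x
  rw [min_eq_right h.2, max_eq_right h.1]

lemma gen_TC {c : ℝ} {W : UG (L2 (Site d))} {V : Site d → ℝ} (hW : IsGrp c V W) {R : ℝ}
    (hR : 0 ≤ R) (hV : ∀ x, |V x| ≤ R) : Gen W (TC c hR V) := by
  intro x t j
  refine ((hW x).2 t j).congr_deriv ?_
  unfold TC
  rw [TV_apply, cl_id hV]
  simp

lemma ae_good {ρ : Measure ℝ} [IsProbabilityMeasure ρ] {R : ℝ} (hR : ∀ᵐ κ ∂ρ, |κ| ≤ R) :
    ∀ᵐ V ∂(Measure.infinitePi fun _ : Site d => ρ), ∀ x, |V x| ≤ R := by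
  rw [ae_all_iff]
  intro x
  exact (measurePreserving_eval_infinitePi (fun _ : Site d => ρ) x).quasiMeasurePreserving.ae hR

lemma cfc_diff {ι : Type} {T : L2 ι →L[ℂ] L2 ι} (hT : IsSelfAdjoint T) {B : ℝ} (hB : ‖T‖ ≤ B)
    {F G : ℝ → ℂ} (hF : Continuous F) (hG : Continuous G) {ε : ℝ} (hε : 0 ≤ ε)
    (h : ∀ x : ℝ, |x| ≤ B → ‖G x - F x‖ ≤ ε) :
    ‖cfc (fun z : ℂ => G z.re) T - cfc (fun z : ℂ => F z.re) T‖ ≤ ε := by
  have hn : IsStarNormal T := hT.isStarNormal
  rw [← cfc_sub (fun z : ℂ => G z.re) (fun z : ℂ => F z.re) T (by fun_prop) (by fun_prop)]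
  exact cfc_le hB (fun x => G x - F x) hε h

theorem fun_ : S_Fun := by
  intro d c R hR ρ hρ hρR ev hev X hX m hm hch h hh W' hW' s t
  set P : Measure (Site d → ℝ) := Measure.infinitePi fun _ : Site d => ρ with hP
  obtain ⟨M, hM⟩ := hX.bdd
  have hM0 : 0 ≤ M := (norm_nonneg _).trans (hM 0)
  have hgood := ae_good (d := d) hρR
  -- the vector
  set ph : (Site d → ℝ) → L2 (Site d) := fun V => X V ((ev V).U (-t) (dl 0)) with hph
  have hcv : ∀ a : ℝ, Cv fun V : Site d → ℝ => (ev V).U a := fun a =>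
    cvU (p := fun r : ℝ => r) hev continuous_id a
  have hphm : StronglyMeasurable ph := (hX.comp (hcv (-t))).sm 0
  have hd0 : ‖(dl 0 : L2 (Site d))‖ = 1 := STAT.norm_dl 0
  have hphn : ∀ V, ‖ph V‖ ≤ M := by
    intro V
    refine ((X V).le_opNorm _).trans ?_
    rw [(ev V).norm', hd0, mul_one]
    exact hM V
  have hxn : ∀ V, ‖X V (dl 0)‖ ≤ M := fun V => Cv.norm_dl_le hM V 0
  -- the quantity
  set A : (ℝ → ℂ) → (Site d → ℝ) → ℂ := fun F V =>
    ⟪X V (dl 0), cfc (fun z : ℂ => F z.re) (TC c hR V) (ph V)⟫_ℂ with hA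
  have hAn : ∀ F : ℝ → ℂ, ∀ C : ℝ, (∀ x, ‖F x‖ ≤ C) → ∀ V, ‖A F V‖ ≤ M * (C * M) := by
    intro F C hC V
    have hC0 : 0 ≤ C := (norm_nonneg _).trans (hC 0)
    refine (norm_inner_le_norm _ _).trans ?_
    refine mul_le_mul (hxn V) ?_ (norm_nonneg _) hM0
    refine (ContinuousLinearMap.le_opNorm _ _).trans ?_
    exact mul_le_mul (cfc_le le_rfl F hC0 fun x _ => hC x) (hphn V) (norm_nonneg _) hC0
  let Q : (ℝ → ℂ) → Prop := fun F => Continuous F ∧ (∃ C, ∀ x, ‖F x‖ ≤ C) ∧ Integrable (A F) P ∧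
    ∫ p, F p.1 * Complex.exp (Complex.I * (t * p.2)) ∂m = ∫ V, A F V ∂P
  have he1 : ∀ r : ℝ, ‖Complex.exp (Complex.I * r)‖ = 1 := by
    intro r
    rw [mul_comm]
    exact Complex.norm_exp_ofReal_mul_I r
  have hintm : ∀ F : ℝ → ℂ, Continuous F → (∃ C, ∀ x, ‖F x‖ ≤ C) →
      Integrable (fun p : ℝ × ℝ => F p.1 * Complex.exp (Complex.I * (t * p.2))) m := by
    rintro F hF ⟨C, hC⟩
    refine Integrable.of_bound (C := C) ?_ (Eventually.of_forall fun p => ?_)
    · refine Continuous.aestronglyMeasurable ?_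
      fun_prop
    · rw [norm_mul, ← Complex.ofReal_mul, he1, mul_one]
      exact hC _
  have hQe : ∀ s : ℝ, Q fun x => Complex.exp (Complex.I * (s * x)) := by
    intro s
    have hb : ∀ x : ℝ, ‖Complex.exp (Complex.I * (s * x))‖ ≤ 1 := by
      intro x
      rw [← Complex.ofReal_mul, he1]
    have hae : A (fun x => Complex.exp (Complex.I * (s * x))) =ᵐ[P]
        fun V => ⟪X V (dl 0), (ev V).U (-s) (ph V)⟫_ℂ := by
      filter_upwards [hgood] with V hV
      rw [gen_cfc' (TC_sa c hR V) (gen_TC (hev V) hR hV) (ph V) (-s)]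
      have e : (fun z : ℂ => Complex.exp (Complex.I * (s * (z.re : ℝ)))) =
          fun z : ℂ => Complex.exp (-(Complex.I * (((-s : ℝ) : ℂ) * (z.re : ℝ)))) := by
        funext z
        congr 1
        push_cast
        ring
      rw [← e]
    refine ⟨by fun_prop, ⟨1, hb⟩, ?_, ?_⟩
    · refine Integrable.of_bound (C := M * (1 * M)) ?_
        (Eventually.of_forall fun V => hAn _ 1 hb V)
      refine AEStronglyMeasurable.congr ?_ hae.symm
      exact ((hX.sm 0).inner ((hcv (-s)).sm_apply hphm)).aestronglyMeasurable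
    · rw [integral_congr_ae hae, ← hch s t]
      refine integral_congr_ae (Eventually.of_forall fun p => ?_)
      simp only
      rw [← Complex.exp_add]
      congr 1
      ring
  have hQa : ∀ F G, Q F → Q G → Q (fun x => F x + G x) := by
    rintro F G ⟨hF, ⟨C, hC⟩, hFi, hFe⟩ ⟨hG, ⟨C', hC'⟩, hGi, hGe⟩
    have hAA : A (fun x => F x + G x) = fun V => A F V + A G V := by
      funext V
      have hn : IsStarNormal (TC c hR V) := (TC_sa c hR V).isStarNormal
      simp only [hA]
      rw [cfc_add (TC c hR V) (fun z : ℂ => F z.re) (fun z : ℂ => G z.re) (by fun_prop)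
        (by fun_prop), _root_.add_apply, inner_add_right]
    refine ⟨hF.add hG, ⟨C + C', fun x => (norm_add_le _ _).trans (add_le_add (hC x) (hC' x))⟩,
      ?_, ?_⟩
    · rw [hAA]
      exact hFi.add hGi
    · rw [hAA, integral_add hFi hGi, ← hFe, ← hGe, ← integral_add (hintm F hF ⟨C, hC⟩)
        (hintm G hG ⟨C', hC'⟩)]
      refine integral_congr_ae (Eventually.of_forall fun p => ?_)
      simp only
      ring
  have hQs : ∀ (a : ℂ) F, Q F → Q (fun x => a * F x) := by
    rintro a F ⟨hF, ⟨C, hC⟩, hFi, hFe⟩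
    have hAA : A (fun x => a * F x) = fun V => a * A F V := by
      funext V
      have hn : IsStarNormal (TC c hR V) := (TC_sa c hR V).isStarNormal
      simp only [hA]
      rw [cfc_const_mul a (fun z : ℂ => F z.re) (TC c hR V) (by fun_prop), _root_.smul_apply,
        inner_smul_right]
    refine ⟨continuous_const.mul hF, ⟨‖a‖ * C, fun x => ?_⟩, ?_, ?_⟩
    · rw [norm_mul]
      exact mul_le_mul_of_nonneg_left (hC x) (norm_nonneg _)
    · rw [hAA]
      exact hFi.const_mul a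
    · rw [hAA, integral_const_mul, ← hFe, ← integral_const_mul]
      refine integral_congr_ae (Eventually.of_forall fun p => ?_)
      simp only
      ring
  -- the function
  obtain ⟨F, hF⟩ : ∃ F : ℝ → ℂ, F = fun x => Complex.exp (Complex.I * (s * h x)) := ⟨_, rfl⟩
  have hFc : Continuous F := by
    rw [hF]
    fun_prop
  have hF1 : ∀ x, ‖F x‖ ≤ 1 := by
    intro x
    have e : F x = Complex.exp (Complex.I * ((s * h x : ℝ) : ℂ)) := by
      rw [hF, Complex.ofReal_mul]
    rw [e, he1]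
  have hB0 : 0 ≤ ‖Kp d c‖ + R := by positivity
  have happ : ∀ n : ℕ, ∃ G : ℝ → ℂ, Q G ∧ (∀ x, ‖G x‖ ≤ 1 + 1 / ((n : ℝ) + 1)) ∧
      ∀ x, |x| ≤ ‖Kp d c‖ + R + (n + 1) → ‖G x - F x‖ ≤ 1 / ((n : ℝ) + 1) := fun n =>
    trig F hFc hF1 (‖Kp d c‖ + R + (n + 1)) (1 / ((n : ℝ) + 1)) (by positivity) (by positivity) Q
      hQe hQa hQs
  choose G hGQ hGb hGF using happ
  have hone : ∀ n : ℕ, 1 / ((n : ℝ) + 1) ≤ 1 := by
    intro n
    rw [div_le_one (by positivity)]
    linarith [(n.cast_nonneg : (0 : ℝ) ≤ n)]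
  have hG2 : ∀ n x, ‖G n x‖ ≤ 2 := fun n x => (hGb n x).trans (by linarith [hone n])
  have hlim0 : Tendsto (fun n : ℕ => 1 / ((n : ℝ) + 1)) atTop (𝓝 0) :=
    tendsto_one_div_add_atTop_nhds_zero_nat
  -- the left side
  have hL : Tendsto (fun n => ∫ p, G n p.1 * Complex.exp (Complex.I * (t * p.2)) ∂m) atTop
      (𝓝 (∫ p, F p.1 * Complex.exp (Complex.I * (t * p.2)) ∂m)) := by
    refine tendsto_integral_of_dominated_convergence (fun _ => (2 : ℝ)) (fun n => ?_)
      (integrable_const _) (fun n => Eventually.of_forall fun p => ?_)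
      (Eventually.of_forall fun p => ?_)
    · exact (hintm (G n) (hGQ n).1 (hGQ n).2.1).aestronglyMeasurable
    · rw [norm_mul, ← Complex.ofReal_mul, he1, mul_one]
      exact hG2 n _
    · refine Tendsto.mul_const _ ?_
      rw [tendsto_iff_norm_sub_tendsto_zero]
      refine squeeze_zero' (Eventually.of_forall fun _ => norm_nonneg _) ?_ hlim0
      filter_upwards [eventually_ge_atTop ⌈|p.1|⌉₊] with n hn
      refine hGF n _ ?_
      have h1 : |p.1| ≤ n := (Nat.le_ceil _).trans (by exact_mod_cast hn)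
      linarith
  -- the right side
  have hRt : Tendsto (fun n => ∫ V, A (G n) V ∂P) atTop (𝓝 (∫ V, A F V ∂P)) := by
    refine tendsto_integral_of_dominated_convergence (fun _ => M * (2 * M)) (fun n => ?_)
      (integrable_const _) (fun n => Eventually.of_forall fun V => hAn _ 2 (hG2 n) V)
      (Eventually.of_forall fun V => ?_)
    · exact (hGQ n).2.2.1.aestronglyMeasurable
    · have hn : IsStarNormal (TC c hR V) := (TC_sa c hR V).isStarNormal
      rw [tendsto_iff_norm_sub_tendsto_zero]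
      have hlim1 : Tendsto (fun n : ℕ => M * (1 / ((n : ℝ) + 1) * M)) atTop (𝓝 0) := by
        have := (hlim0.mul_const M).const_mul M
        simpa using this
      refine squeeze_zero (fun _ => norm_nonneg _) (fun n => ?_) hlim1
      have hle := cfc_diff (TC_sa c hR V) (TC_norm c hR V) hFc (hGQ n).1
        (ε := 1 / ((n : ℝ) + 1)) (by positivity) (fun x hx => hGF n x (by
          have : (0 : ℝ) ≤ n := n.cast_nonneg
          linarith))
      have e : A (G n) V - A F V = ⟪X V (dl 0), (cfc (fun z : ℂ => G n z.re) (TC c hR V) -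
          cfc (fun z : ℂ => F z.re) (TC c hR V)) (ph V)⟫_ℂ := by
        simp only [hA]
        rw [_root_.sub_apply, inner_sub_right]
      rw [e]
      refine (norm_inner_le_norm _ _).trans ?_
      refine mul_le_mul (hxn V) ?_ (norm_nonneg _) hM0
      refine (ContinuousLinearMap.le_opNorm _ _).trans ?_
      exact mul_le_mul hle (hphn V) (norm_nonneg _) (by positivity)
  have hfin : ∫ p, F p.1 * Complex.exp (Complex.I * (t * p.2)) ∂m = ∫ V, A F V ∂P := by
    refine tendsto_nhds_unique hL ?_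
    refine hRt.congr fun n => ?_
    exact ((hGQ n).2.2.2).symm
  have eL : ∫ p, Complex.exp (Complex.I * (s * h p.1 + t * p.2)) ∂m =
      ∫ p, F p.1 * Complex.exp (Complex.I * (t * p.2)) ∂m := by
    refine integral_congr_ae (Eventually.of_forall fun p => ?_)
    simp only [hF]
    rw [← Complex.exp_add]
    congr 1
    ring
  rw [eL, hfin]
  refine integral_congr_ae (Eventually.of_forall fun V => ?_)
  simp only [hA]
  rw [gen_cfc (TC_sa c hR V) hh (hW' V) _ (-s)]
  have e : (fun z : ℂ => F z.re) =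
      fun z : ℂ => Complex.exp (-(Complex.I * (((-s : ℝ) : ℂ) * (h z.re : ℝ)))) := by
    funext z
    simp only [hF]
    congr 1
    push_cast
    ring
  rw [e]

end Pool.Agent.Helper59.Cc

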