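import Pool.Agent.Helper26.Cc.Stm2

/-! # The group with a given bounded generator is the exponential -/

set_option autoImplicit false

open MeasureTheory Filter Topology
open scoped BigOperators ENNReal NNReal InnerProductSpace ComplexConjugate

namespace Pool.Agent.Helper59.Cc

open Pool.Agent.H5R2.NB Pool.Agent.Helper26.Nb Pool.Agent.Helper26.Cm Pool.Agent.Helper26.Dj
  Pool.Agent.Helper26.Rg Pool.Agent.Helper26.Cc
open Pool.Agent.TH369.AN (Rz pt ro cp fc)
open Pool.Agent.TH369.MU (zk ep)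

variable {ι : Type}

/-- Duhamel's formula -/
lemma gen_int {W : UG (L2 ι)} {T : L2 ι →L[ℂ] L2 ι} (h : Gen W T) (x : L2 ι) (t : ℝ) :
    W.U t x = x + ∫ s in (0 : ℝ)..t, (-Complex.I) • T (W.U s x) := by
  have hc : Continuous fun s : ℝ => (-Complex.I) • T (W.U s x) :=
    (continuous_const_smul (-Complex.I)).comp (T.continuous.comp (W.cont' x))
  ext j
  let L : L2 ι →L[ℂ] ℂ := lp.evalCLM ℂ (fun _ : ι => ℂ) 2 j
  have hL : ∀ y : L2 ι, L y = y j := fun y => rfl
  have e1 : ∫ s in (0 : ℝ)..t, -Complex.I * (T (W.U s x)) j = (W.U t x) j - (W.U 0 x) j := by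
    refine intervalIntegral.integral_eq_sub_of_hasDerivAt (fun s _ => h x s j) ?_
    refine Continuous.intervalIntegrable ?_ _ _
    exact (L.continuous.comp (T.continuous.comp (W.cont' x))).const_mul _
  have e2 : L (∫ s in (0 : ℝ)..t, (-Complex.I) • T (W.U s x)) =
      ∫ s in (0 : ℝ)..t, -Complex.I * (T (W.U s x)) j := by
    rw [← ContinuousLinearMap.intervalIntegral_comp_comm L (hc.intervalIntegrable _ _)]
    rfl
  rw [lp.coeFn_add, Pi.add_apply, ← hL (∫ s in (0 : ℝ)..t, (-Complex.I) • T (W.U s x)), e2, e1,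
    W.zero']
  ring

lemma gen_der {W : UG (L2 ι)} {T : L2 ι →L[ℂ] L2 ι} (h : Gen W T) (x : L2 ι) (t : ℝ) :
    HasDerivAt (fun s => W.U s x) ((-Complex.I) • T (W.U t x)) t := by
  have hc : Continuous fun s : ℝ => (-Complex.I) • T (W.U s x) :=
    (continuous_const_smul (-Complex.I)).comp (T.continuous.comp (W.cont' x))
  have e : (fun s => W.U s x) = fun t => x + ∫ s in (0 : ℝ)..t, (-Complex.I) • T (W.U s x) :=
    funext fun t => gen_int h x t
  rw [e]
  exact (hc.integral_hasStrictDerivAt 0 t).hasDerivAt.const_add x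

lemma exp_der (T : L2 ι →L[ℂ] L2 ι) (x : L2 ι) (t : ℝ) :
    HasDerivAt (fun s : ℝ => NormedSpace.exp (s • ((-Complex.I) • T)) x)
      ((-Complex.I) • T (NormedSpace.exp (t • ((-Complex.I) • T)) x)) t := by
  have h1 := hasDerivAt_exp_smul_const' (𝕂 := ℝ) ((-Complex.I) • T) t
  let L : (L2 ι →L[ℂ] L2 ι) →L[ℝ] L2 ι :=
    (ContinuousLinearMap.apply ℂ (L2 ι) x).restrictScalars ℝ
  exact L.hasFDerivAt.comp_hasDerivAt t h1

theorem gen_exp {W : UG (L2 ι)} {T : L2 ι →L[ℂ] L2 ι} (h : Gen W T) (x : L2 ι) (t : ℝ) :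
    W.U t x = NormedSpace.exp (t • ((-Complex.I) • T)) x := by
  have h1 : (fun s => W.U s x) = fun s : ℝ => NormedSpace.exp (s • ((-Complex.I) • T)) x := by
    refine ODE_solution_unique_univ (v := fun _ y => ((-Complex.I) • T) y) (s := fun _ => Set.univ)
      (K := ‖(-Complex.I) • T‖₊) (t₀ := 0) (fun t => ?_) (fun t => ⟨gen_der h x t, trivial⟩)
      (fun t => ⟨exp_der T x t, trivial⟩) ?_
    · exact ((-Complex.I) • T).lipschitz.lipschitzOnWith
    · simp [W.zero']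
  exact congrFun h1 t

/-- the exponential as a function of the operator -/
theorem exp_fc {T : L2 ι →L[ℂ] L2 ι} (hT : IsSelfAdjoint T) {h : ℝ → ℝ} (hh : Continuous h)
    (t : ℝ) : NormedSpace.exp (t • ((-Complex.I) • fc h T)) =
      cfc (fun z : ℂ => Complex.exp (-(Complex.I * (t * h z.re)))) T := by
  have hn : IsStarNormal T := hT.isStarNormal
  have e1 : t • ((-Complex.I) • fc h T) =
      cfc (fun z : ℂ => -(Complex.I * (t * h z.re))) T := by
    unfold fc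
    rw [cfc_real_eq_complex h hT, ← cfc_smul (-Complex.I) (fun z : ℂ => ((h z.re : ℝ) : ℂ)) T
      (by fun_prop), ← cfc_smul t (fun z : ℂ => (-Complex.I) • ((h z.re : ℝ) : ℂ)) T (by fun_prop)]
    refine cfc_congr fun z _ => ?_
    simp only [smul_eq_mul, Complex.real_smul]
    ring
  rw [e1, ← CFC.complex_exp_eq_normedSpace_exp (a := cfc (fun z : ℂ =>
    -(Complex.I * (t * h z.re))) T) (cfc_predicate _ T), ← cfc_comp' Complex.exp
      (fun z : ℂ => -(Complex.I * (t * h z.re))) T (by fun_prop) (by fun_prop)]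

lemma fc_id {T : L2 ι →L[ℂ] L2 ι} (hT : IsSelfAdjoint T) : fc (fun x => x) T = T := by
  have hn : IsStarNormal T := hT.isStarNormal
  unfold fc
  rw [cfc_real_eq_complex _ hT]
  conv_rhs => rw [← cfc_id' ℂ T]
  refine cfc_congr fun z hz => ?_
  exact (SpectrumRestricts.real_iff.mp hT.spectrumRestricts _ hz).symm

theorem gen_cfc {W : UG (L2 ι)} {T : L2 ι →L[ℂ] L2 ι} (hT : IsSelfAdjoint T) {h : ℝ → ℝ}
    (hh : Continuous h) (hW : Gen W (fc h T)) (x : L2 ι) (t : ℝ) :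
    W.U t x = cfc (fun z : ℂ => Complex.exp (-(Complex.I * (t * h z.re)))) T x := by
  rw [gen_exp hW, exp_fc hT hh]

theorem gen_cfc' {W : UG (L2 ι)} {T : L2 ι →L[ℂ] L2 ι} (hT : IsSelfAdjoint T) (hW : Gen W T)
    (x : L2 ι) (t : ℝ) :
    W.U t x = cfc (fun z : ℂ => Complex.exp (-(Complex.I * (t * (z.re : ℝ))))) T x :=
  gen_cfc hT continuous_id (by rwa [show fc id T = T from fc_id hT]) x t

/-- norm of a function of an operator -/
lemma cfc_le {T : L2 ι →L[ℂ] L2 ι} {B : ℝ} (hB : ‖T‖ ≤ B) (F : ℝ → ℂ) {ε : ℝ}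
    (hε : 0 ≤ ε) (hF : ∀ x : ℝ, |x| ≤ B → ‖F x‖ ≤ ε) :
    ‖cfc (fun z : ℂ => F z.re) T‖ ≤ ε := by
  refine norm_cfc_le hε fun z hz => hF _ ?_
  have h1 := spectrum.norm_le_norm_mul_of_mem hz
  have h2 : ‖(1 : L2 ι →L[ℂ] L2 ι)‖ ≤ 1 := ContinuousLinearMap.norm_id_le
  have h3 : ‖T‖ * ‖(1 : L2 ι →L[ℂ] L2 ι)‖ ≤ ‖T‖ * 1 :=
    mul_le_mul_of_nonneg_left h2 (norm_nonneg _)
  calc |z.re| ≤ ‖z‖ := Complex.abs_re_le_norm z
    _ ≤ B := by linarith

end Pool.Agent.Helper59.Cc
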